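import Mathlib

/-!
Universal minimal divisible completions of metabelian ordered groups.

An ordered group is a group with a total order for which left and right multiplication are
monotone (`[Group G] [LinearOrder G] [MulLeftMono G] [MulRightMono G]`).
-/

namespace Pool.Agent.Results.MP_75202e_al.MetabelianCompletion

universe u v w

/-- Every element has an `n`-th root, for every `n ≥ 1`. -/
def IsDivisible (D : Type*) [Group D] : Prop :=
  ∀ (d : D) (n : ℕ), 1 ≤ n → ∃ x : D, x ^ n = d

/-- A subgroup `J` is isolated if `g ^ n ∈ J` with `n ≥ 1` forces `g ∈ J`. -/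
def Isolated {T : Type*} [Group T] (J : Subgroup T) : Prop :=
  ∀ (g : T) (n : ℕ), 1 ≤ n → g ^ n ∈ J → g ∈ J

/-- The isolator of `S`: the smallest isolated subgroup containing `S`. -/
def isolator {T : Type*} [Group T] (S : Subgroup T) : Subgroup T :=
  sInf {J : Subgroup T | S ≤ J ∧ Isolated J}

/-- An order-embedding of ordered groups: an injective homomorphism preserving the order. -/
def IsOrderEmbedding {G : Type*} {H : Type*} [Group G] [LinearOrder G] [Group H] [LinearOrder H]
    (i : G →* H) : Prop :=
  Function.Injective i ∧ ∀ a b : G, a ≤ b → i a ≤ i b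

/-- `i : G →* H` exhibits the ordered group `H` as a minimal divisible completion of `G`:
`i` is an order-embedding, `H` is divisible and `H` is the isolator of the image of `G`. -/
def IsMinimalDivisibleCompletion {G : Type*} {H : Type*} [Group G] [LinearOrder G]
    [Group H] [LinearOrder H] (i : G →* H) : Prop :=
  IsOrderEmbedding i ∧ IsDivisible H ∧ isolator i.range = ⊤

section Basics

variable {T : Type*} [Group T]

theorem le_isolator (S : Subgroup T) : S ≤ isolator S :=
  le_sInf fun _ hJ => hJ.1

theorem isolated_isolator (S : Subgroup T) : Isolated (isolator S) := by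
  intro g n hn hg
  rw [isolator, Subgroup.mem_sInf] at hg ⊢
  intro J hJ
  exact hJ.2 g n hn (hg J hJ)

theorem isolator_le {S J : Subgroup T} (h : S ≤ J) (hJ : Isolated J) : isolator S ≤ J :=
  sInf_le ⟨h, hJ⟩

theorem root_unique [LinearOrder T] [MulLeftMono T] [MulRightMono T] {x y : T} {n : ℕ}
    (hn : 1 ≤ n) (h : x ^ n = y ^ n) : x = y := by
  have hs : StrictMono (fun z : T => z ^ n) := pow_left_strictMono (by omega)
  exact hs.injective h

end Basics

section Lexi

variable {ι : Type u} [LinearOrder ι] {α : ι → Type u}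
  [∀ i, Group (α i)] [∀ i, LinearOrder (α i)]

theorem lexMulLeftMono [∀ i, MulLeftMono (α i)] : MulLeftMono (Lex (∀ i, α i)) := by
  constructor
  intro c a b hab
  rcases hab.lt_or_eq with h | h
  · obtain ⟨i, hi, hlt⟩ := h
    refine le_of_lt ⟨i, fun j hj => ?_, ?_⟩
    · change (c * a) j = (c * b) j
      have : a j = b j := hi j hj
      change c j * a j = c j * b j
      rw [this]
    · change c i * a i < c i * b i
      exact mul_lt_mul_right hlt (c i)
  · subst h; exact le_rfl

theorem lexMulRightMono [∀ i, MulRightMono (α i)] : MulRightMono (Lex (∀ i, α i)) := by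
  constructor
  intro c a b hab
  rcases hab.lt_or_eq with h | h
  · obtain ⟨i, hi, hlt⟩ := h
    refine le_of_lt ⟨i, fun j hj => ?_, ?_⟩
    · have : a j = b j := hi j hj
      change a j * c j = b j * c j
      rw [this]
    · change a i * c i < b i * c i
      exact mul_lt_mul_left hlt (c i)
  · subst h; exact le_rfl

end Lexi

section Core

variable {G : Type u} [Group G] [LinearOrder G]

/-- Any nonempty family of minimal divisible completions (indexed by a well-ordered type) is
dominated by a single one, namely the isolator of the diagonal in the Cartesian product. -/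
theorem core {ι : Type u} [LinearOrder ι] [WellFoundedLT ι] [Nonempty ι] {α : ι → Type u}
    [∀ i, Group (α i)] [∀ i, LinearOrder (α i)] [∀ i, MulLeftMono (α i)]
    [∀ i, MulRightMono (α i)] (k : ∀ i, G →* α i)
    (hk : ∀ i, IsMinimalDivisibleCompletion (k i)) :
    ∃ (K : Type u) (_ : Group K) (_ : LinearOrder K) (_ : MulLeftMono K) (_ : MulRightMono K)
      (κ : G →* K), IsMinimalDivisibleCompletion κ ∧
      ∀ i, ∃ φ : K →* α i, Function.Surjective φ ∧ ∀ g, φ (κ g) = k i g := by
  classical
  have := lexMulLeftMono (α := α)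
  have := lexMulRightMono (α := α)
  -- the diagonal
  let δ : G →* Lex (∀ i, α i) :=
    { toFun := fun g => toLex fun i => k i g
      map_one' := by
        change (fun i => k i 1) = (fun _ => 1)
        funext i; exact map_one (k i)
      map_mul' := fun a b => by
        change (fun i => k i (a * b)) = (fun i => k i a * k i b)
        funext i; exact map_mul (k i) a b }
  have hδ : ∀ g i, (δ g) i = k i g := fun _ _ => rfl
  let K0 : Subgroup (Lex (∀ i, α i)) := isolator δ.range
  have hdK0 : δ.range ≤ K0 := le_isolator _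
  have hisK0 : Isolated K0 := isolated_isolator _
  -- roots in the product
  have hroot : ∀ (x : Lex (∀ i, α i)) (n : ℕ), 1 ≤ n → ∃ y : Lex (∀ i, α i), y ^ n = x := by
    intro x n hn
    choose y hy using fun i => (hk i).2.1 (x i) n hn
    refine ⟨toLex y, ?_⟩
    change (fun i => (y i) ^ n) = x
    funext i; exact hy i
  let κ : G →* K0 := δ.codRestrict K0 (fun g => hdK0 ⟨g, rfl⟩)
  have hκ : ∀ g, ((κ g : K0) : Lex (∀ i, α i)) = δ g := fun _ => rfl
  have : MulLeftMono K0 := ⟨fun c a b hab => by
    change (c : Lex (∀ i, α i)) * a ≤ c * b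
    exact mul_le_mul_right (show (a : Lex (∀ i, α i)) ≤ b from hab) _⟩
  have : MulRightMono K0 := ⟨fun c a b hab => by
    change (a : Lex (∀ i, α i)) * c ≤ b * c
    exact mul_le_mul_left (show (a : Lex (∀ i, α i)) ≤ b from hab) _⟩
  have hdivK : IsDivisible K0 := by
    intro x n hn
    obtain ⟨y, hy⟩ := hroot x n hn
    refine ⟨⟨y, hisK0 y n hn (by rw [hy]; exact x.2)⟩, ?_⟩
    apply Subtype.ext
    exact hy
  refine ⟨K0, inferInstance, inferInstance, inferInstance, inferInstance, κ, ⟨⟨?_, ?_⟩, hdivK, ?_⟩,
    ?_⟩
  · -- injective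
    intro a b hab
    obtain ⟨i⟩ := ‹Nonempty ι›
    have h1 : δ a = δ b := congrArg Subtype.val hab
    exact (hk i).1.1 (congrFun h1 i)
  · -- order preserving
    intro a b hab
    rcases hab.lt_or_eq with h | h
    · have hne : (Set.univ : Set ι).Nonempty := Set.univ_nonempty
      let i0 : ι := (wellFounded_lt (α := ι)).min Set.univ hne
      have hmin : ∀ j : ι, ¬ j < i0 := fun j =>
        (wellFounded_lt (α := ι)).not_lt_min _ (Set.mem_univ j)
      refine le_of_lt ?_
      change δ a < δ b
      refine ⟨i0, fun j hj => absurd hj (hmin j), ?_⟩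
      change k i0 a < k i0 b
      exact lt_of_le_of_ne ((hk i0).1.2 a b hab) (fun he => h.ne ((hk i0).1.1 he))
    · subst h; exact le_rfl
  · -- isolator of the image is everything
    rw [eq_top_iff]
    intro x _
    rw [isolator, Subgroup.mem_sInf]
    rintro J ⟨hJ1, hJ2⟩
    have hmap : K0 ≤ J.map K0.subtype := by
      apply isolator_le
      · rintro _ ⟨g, rfl⟩
        exact ⟨κ g, hJ1 ⟨g, rfl⟩, rfl⟩
      · rintro g n hn ⟨y, hy, hyg⟩
        have hg : g ∈ K0 := hisK0 g n hn (by rw [← hyg]; exact y.2)
        refine ⟨⟨g, hg⟩, hJ2 ⟨g, hg⟩ n hn ?_, rfl⟩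
        have : (⟨g, hg⟩ : K0) ^ n = y := Subtype.ext (by
          change g ^ n = (y : Lex (∀ i, α i))
          exact hyg.symm)
        rw [this]; exact hy
    obtain ⟨y, hy, hyx⟩ := hmap x.2
    have : y = x := Subtype.ext hyx
    rw [← this]; exact hy
  · -- projections
    intro i
    let φ : K0 →* α i :=
      { toFun := fun x => (x : Lex (∀ i, α i)) i
        map_one' := rfl
        map_mul' := fun _ _ => rfl }
    refine ⟨φ, ?_, fun g => rfl⟩
    have hiso : Isolated φ.range := by
      rintro g n hn ⟨x, hx⟩
      obtain ⟨y, hy⟩ := hdivK x n hn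
      refine ⟨y, ?_⟩
      apply root_unique hn
      rw [← map_pow, hy, hx]
    have htop : φ.range = ⊤ := by
      rw [eq_top_iff, ← (hk i).2.2]
      apply isolator_le _ hiso
      rintro _ ⟨g, rfl⟩
      exact ⟨κ g, rfl⟩
    exact MonoidHom.range_eq_top.mp htop

end Core

section Terms

/-- Formal expressions built from elements of `G` by products, inverses and roots. -/
inductive RootTerm (G : Type u) : Type u
  | of : G → RootTerm G
  | mul : RootTerm G → RootTerm G → RootTerm G
  | inv : RootTerm G → RootTerm G
  | root : ℕ → RootTerm G → RootTerm G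

/-- Evaluation of formal expressions. -/
def RootTerm.eval {G : Type u} {H : Type v} [Group G] [Group H] (h : G →* H) (r : ℕ → H → H) :
    RootTerm G → H
  | .of g => h g
  | .mul s t => s.eval h r * t.eval h r
  | .inv s => (s.eval h r)⁻¹
  | .root n s => r n (s.eval h r)

theorem RootTerm.eval_surjective {G : Type u} {H : Type v} [Group G] [LinearOrder G] [Group H]
    [LinearOrder H] [MulLeftMono H] [MulRightMono H] (h : G →* H)
    (hc : IsMinimalDivisibleCompletion h) (r : ℕ → H → H)
    (hr : ∀ n d, 1 ≤ n → r n d ^ n = d) : Function.Surjective (RootTerm.eval h r) := by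
  let R : Subgroup H :=
    { carrier := Set.range (RootTerm.eval h r)
      one_mem' := ⟨.of 1, by simp [RootTerm.eval]⟩
      mul_mem' := by
        rintro _ _ ⟨s, rfl⟩ ⟨t, rfl⟩
        exact ⟨.mul s t, rfl⟩
      inv_mem' := by
        rintro _ ⟨s, rfl⟩
        exact ⟨.inv s, rfl⟩ }
  have hR : R = ⊤ := by
    rw [eq_top_iff, ← hc.2.2]
    apply isolator_le
    · rintro _ ⟨g, rfl⟩
      exact ⟨.of g, rfl⟩
    · rintro g n hn ⟨s, hs⟩
      refine ⟨.root n s, ?_⟩
      apply root_unique hn
      change r n (s.eval h r) ^ n = g ^ n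
      rw [hr n _ hn, hs]
  intro x
  have : x ∈ R := by rw [hR]; trivial
  exact this

/-- All minimal divisible completions of `G` carried by a quotient of `RootTerm G`. -/
structure Idx (G : Type u) [Group G] [LinearOrder G] : Type u where
  s : Setoid (RootTerm G)
  grp : Group (Quotient s)
  lo : LinearOrder (Quotient s)
  lm : MulLeftMono (Quotient s)
  rm : MulRightMono (Quotient s)
  k : G →* Quotient s
  hk : IsMinimalDivisibleCompletion k

/-- Every minimal divisible completion is isomorphic over `G` to an indexed one. -/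
theorem exists_idx {G : Type u} {H : Type v} [Group G] [LinearOrder G] [Group H]
    [LinearOrder H] [MulLeftMono H] [MulRightMono H] (h : G →* H)
    (hc : IsMinimalDivisibleCompletion h) :
    ∃ (i : Idx G), letI := i.grp; ∃ (e : Quotient i.s ≃* H), ∀ g, e (i.k g) = h g := by
  classical
  have hdiv := hc.2.1
  let r : ℕ → H → H := fun n d => if hn : 1 ≤ n then Classical.choose (hdiv d n hn) else 1
  have hr : ∀ n d, 1 ≤ n → r n d ^ n = d := by
    intro n d hn
    have : r n d = Classical.choose (hdiv d n hn) := dif_pos hn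
    rw [this]
    exact Classical.choose_spec (hdiv d n hn)
  have hsurj := RootTerm.eval_surjective h hc r hr
  let s : Setoid (RootTerm G) := Setoid.ker (RootTerm.eval h r)
  let e : Quotient s ≃ H := Setoid.quotientKerEquivOfSurjective _ hsurj
  letI grp : Group (Quotient s) := e.group
  let em : Quotient s ≃* H := e.mulEquiv
  letI lo : LinearOrder (Quotient s) := LinearOrder.lift' e e.injective
  have hle : ∀ a b : Quotient s, a ≤ b ↔ em a ≤ em b := fun _ _ => Iff.rfl
  have lm : MulLeftMono (Quotient s) := ⟨fun c a b hab => by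
    change c * a ≤ c * b
    rw [hle, map_mul, map_mul]
    exact mul_le_mul_right ((hle a b).1 hab) _⟩
  have rm : MulRightMono (Quotient s) := ⟨fun c a b hab => by
    change a * c ≤ b * c
    rw [hle, map_mul, map_mul]
    exact mul_le_mul_left ((hle a b).1 hab) _⟩
  let k : G →* Quotient s := em.symm.toMonoidHom.comp h
  have hek : ∀ g, em (k g) = h g := fun g => em.apply_symm_apply (h g)
  have hk : IsMinimalDivisibleCompletion k := by
    refine ⟨⟨?_, ?_⟩, ?_, ?_⟩
    · intro a b hab
      apply hc.1.1
      rw [← hek, ← hek, hab]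
    · intro a b hab
      rw [hle, hek, hek]
      exact hc.1.2 a b hab
    · intro d n hn
      obtain ⟨x, hx⟩ := hdiv (em d) n hn
      refine ⟨em.symm x, em.injective ?_⟩
      rw [map_pow, em.apply_symm_apply, hx]
    · rw [eq_top_iff]
      intro x _
      rw [isolator, Subgroup.mem_sInf]
      rintro J ⟨hJ1, hJ2⟩
      have hmap : (⊤ : Subgroup H) ≤ J.map em.toMonoidHom := by
        rw [← hc.2.2]
        apply isolator_le
        · rintro _ ⟨g, rfl⟩
          exact ⟨k g, hJ1 ⟨g, rfl⟩, hek g⟩
        · rintro g n hn ⟨y, hy, hyg⟩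
          refine ⟨em.symm g, hJ2 _ n hn ?_, em.apply_symm_apply g⟩
          have : (em.symm g) ^ n = y := em.injective (by
            rw [map_pow, em.apply_symm_apply]; exact hyg.symm)
          rw [this]; exact hy
      obtain ⟨y, hy, hyx⟩ := hmap (Subgroup.mem_top (em x))
      have : y = x := em.injective hyx
      rw [← this]; exact hy
  exact ⟨⟨s, grp, lo, lm, rm, k, hk⟩, em, hek⟩

/-- An ordered group which embeds in a divisible ordered group has a minimal divisible
completion (the isolator of its image). -/
theorem exists_completion {G : Type u} [Group G] [LinearOrder G] {D : Type w} [Group D]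
    [LinearOrder D] [MulLeftMono D] [MulRightMono D] (j : G →* D) (hj : IsOrderEmbedding j)
    (hD : IsDivisible D) : Nonempty (Idx G) := by
  let K0 : Subgroup D := isolator j.range
  have hdK0 : j.range ≤ K0 := le_isolator _
  have hisK0 : Isolated K0 := isolated_isolator _
  let κ : G →* K0 := j.codRestrict K0 (fun g => hdK0 ⟨g, rfl⟩)
  have : MulLeftMono K0 := ⟨fun c a b hab => by
    change (c : D) * a ≤ c * b
    exact mul_le_mul_right (show (a : D) ≤ b from hab) _⟩
  have : MulRightMono K0 := ⟨fun c a b hab => by
    change (a : D) * c ≤ b * c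
    exact mul_le_mul_left (show (a : D) ≤ b from hab) _⟩
  have hκ : IsMinimalDivisibleCompletion κ := by
    refine ⟨⟨?_, ?_⟩, ?_, ?_⟩
    · intro a b hab
      exact hj.1 (congrArg Subtype.val hab)
    · intro a b hab
      exact hj.2 a b hab
    · intro x n hn
      obtain ⟨y, hy⟩ := hD x n hn
      refine ⟨⟨y, hisK0 y n hn (by rw [hy]; exact x.2)⟩, ?_⟩
      apply Subtype.ext
      exact hy
    · rw [eq_top_iff]
      intro x _
      rw [isolator, Subgroup.mem_sInf]
      rintro J ⟨hJ1, hJ2⟩
      have hmap : K0 ≤ J.map K0.subtype := by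
        apply isolator_le
        · rintro _ ⟨g, rfl⟩
          exact ⟨κ g, hJ1 ⟨g, rfl⟩, rfl⟩
        · rintro g n hn ⟨y, hy, hyg⟩
          have hg : g ∈ K0 := hisK0 g n hn (by rw [← hyg]; exact y.2)
          refine ⟨⟨g, hg⟩, hJ2 ⟨g, hg⟩ n hn ?_, rfl⟩
          have : (⟨g, hg⟩ : K0) ^ n = y := Subtype.ext (by
            change g ^ n = (y : D)
            exact hyg.symm)
          rw [this]; exact hy
      obtain ⟨y, hy, hyx⟩ := hmap x.2
      have : y = x := Subtype.ext hyx
      rw [← this]; exact hy
  obtain ⟨i, _⟩ := exists_idx κ hκ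
  exact ⟨i⟩

end Terms

/-- The same for an arbitrary ordered group. -/
theorem general {G : Type u} [Group G] [LinearOrder G] [MulLeftMono G] [MulRightMono G]
    (hG : ∃ (D : Type w) (_ : Group D) (_ : LinearOrder D) (_ : MulLeftMono D)
      (_ : MulRightMono D) (j : G →* D), IsOrderEmbedding j ∧ IsDivisible D) :
    ∃ (K : Type u) (_ : Group K) (_ : LinearOrder K) (_ : MulLeftMono K) (_ : MulRightMono K)
      (κ : G →* K), IsMinimalDivisibleCompletion κ ∧
      ∀ (H : Type v) [Group H] [LinearOrder H] [MulLeftMono H] [MulRightMono H] (h : G →* H),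
        IsMinimalDivisibleCompletion h →
          ∃ φ : K →* H, Function.Surjective φ ∧ ∀ g : G, φ (κ g) = h g := by
  classical
  obtain ⟨D, _, _, _, _, j, hj, hD⟩ := hG
  have : Nonempty (Idx G) := exists_completion j hj hD
  letI : LinearOrder (Idx G) := linearOrderOfSTO WellOrderingRel
  have : WellFoundedLT (Idx G) := ⟨(WellOrderingRel.isWellOrder (α := Idx G)).wf⟩
  letI : ∀ i : Idx G, Group (Quotient i.s) := fun i => i.grp
  letI : ∀ i : Idx G, LinearOrder (Quotient i.s) := fun i => i.lo
  have : ∀ i : Idx G, MulLeftMono (Quotient i.s) := fun i => i.lm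
  have : ∀ i : Idx G, MulRightMono (Quotient i.s) := fun i => i.rm
  obtain ⟨K, _, _, _, _, κ, hκ, hφ⟩ := core (G := G) (fun i : Idx G => i.k) (fun i => i.hk)
  refine ⟨K, inferInstance, inferInstance, inferInstance, inferInstance, κ, hκ, ?_⟩
  intro H _ _ _ _ h hh
  obtain ⟨i, e, he⟩ := exists_idx h hh
  obtain ⟨φ, hs, hg⟩ := hφ i
  refine ⟨e.toMonoidHom.comp φ, e.surjective.comp hs, fun g => ?_⟩
  change e (φ (κ g)) = h g
  rw [hg g, he g]

/-- A group is metabelian if its commutator subgroup is abelian. -/
def IsMetabelian (G : Type*) [Group G] : Prop :=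
  ∀ a ∈ commutator G, ∀ b ∈ commutator G, a * b = b * a

/-- Let `G` be a metabelian ordered group (which, as in the standing assumption of the problem,
order-embeds in a divisible ordered group). Then there is a minimal divisible completion `K` of
`G` such that every minimal divisible completion `H` of `G` is the image of `K` under a
homomorphism fixing `G` pointwise. -/
theorem result {G : Type u} [Group G] [LinearOrder G] [MulLeftMono G] [MulRightMono G]
    (_hmet : IsMetabelian G)
    (hG : ∃ (D : Type w) (_ : Group D) (_ : LinearOrder D) (_ : MulLeftMono D)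
      (_ : MulRightMono D) (j : G →* D), IsOrderEmbedding j ∧ IsDivisible D) :
    ∃ (K : Type u) (_ : Group K) (_ : LinearOrder K) (_ : MulLeftMono K) (_ : MulRightMono K)
      (κ : G →* K), IsMinimalDivisibleCompletion κ ∧
      ∀ (H : Type v) [Group H] [LinearOrder H] [MulLeftMono H] [MulRightMono H] (h : G →* H),
        IsMinimalDivisibleCompletion h →
          ∃ φ : K →* H, Function.Surjective φ ∧ ∀ g : G, φ (κ g) = h g :=
  general hG

end Pool.Agent.Results.MP_75202e_al.MetabelianCompletion
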